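import Mathlib

set_option autoImplicit false

/-!
# The `r`-dynamic chromatic number is not `O(treewidth + r)`

Take `g` groups of `s` points each and, for every pair of groups, a vertex adjacent to all points of
the two groups. All points need different colours in a `2 s`-dynamic colouring, while the treewidth
is at most the number `g ^ 2` of the additional vertices.
-/

namespace Pool.Agent.Results.MP_96dc1b_co.PairBlocks

/-- `φ` is an `r`-dynamic colouring of `G`. -/
def IsDynamic {V : Type} (G : SimpleGraph V) (r : ℕ) {k : ℕ} (φ : V → Fin k) : Prop :=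
  (∀ u v, G.Adj u v → φ u ≠ φ v) ∧
    ∀ v, min r (G.neighborSet v).ncard ≤ (φ '' G.neighborSet v).ncard

/-- The `r`-dynamic chromatic number. -/
noncomputable def dynamicChromaticNumber {V : Type} (G : SimpleGraph V) (r : ℕ) : ℕ :=
  sInf {k | ∃ φ : V → Fin k, IsDynamic G r φ}

/-- `G` has a tree decomposition of width at most `w`: a finite tree `T` and bags (sets of at most
`w + 1` vertices) such that each edge of `G` lies in some bag, and the bags containing a given
vertex form a nonempty connected subtree. -/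
def HasTreeDecomposition {V : Type} (G : SimpleGraph V) (w : ℕ) : Prop :=
  ∃ (ι : Type) (_ : Finite ι) (T : SimpleGraph ι) (bag : ι → Finset V), T.IsTree ∧
    (∀ u v, G.Adj u v → ∃ i, u ∈ bag i ∧ v ∈ bag i) ∧
    (∀ v, (T.induce {i | v ∈ bag i}).Connected) ∧
    ∀ i, (bag i).card ≤ w + 1

/-- The treewidth. -/
noncomputable def treewidth {V : Type} (G : SimpleGraph V) : ℕ :=
  sInf {w | HasTreeDecomposition G w}

/-- The graph: points `(a, x)`, and for all `a`, `b` a vertex adjacent to all points of the groups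
`a` and `b`. -/
def graph (g s : ℕ) : SimpleGraph ((Fin g × Fin s) ⊕ (Fin g × Fin g)) where
  Adj u v := match u, v with
    | .inl p, .inr b => p.1 = b.1 ∨ p.1 = b.2
    | .inr b, .inl p => p.1 = b.1 ∨ p.1 = b.2
    | .inl _, .inl _ => False
    | .inr _, .inr _ => False
  symm := ⟨by rintro (p | b) (q | c) h <;> exact h⟩
  loopless := ⟨by rintro (p | b) h <;> exact h⟩

lemma tw_le (g s : ℕ) (hg : 1 ≤ g) (hs : 1 ≤ s) : treewidth (graph g s) ≤ g ^ 2 := by
  classical
  apply Nat.sInf_le
  have : Nonempty (Fin g × Fin s) := ⟨(⟨0, hg⟩, ⟨0, hs⟩)⟩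
  obtain ⟨T, -, hT⟩ := (SimpleGraph.connected_top (V := Fin g × Fin s)).exists_isTree_le
  refine ⟨Fin g × Fin s, inferInstance, T,
    fun i => insert (Sum.inl i) (Finset.univ.image (Sum.inr : Fin g × Fin g → _)), hT, ?_, ?_, ?_⟩
  · rintro (p | b) (q | c) h
    · exact h.elim
    · exact ⟨p, by simp, by simp⟩
    · exact ⟨q, by simp, by simp⟩
    · exact h.elim
  · rintro (p | b)
    · have hset : {i : Fin g × Fin s | (Sum.inl p : (Fin g × Fin s) ⊕ (Fin g × Fin g)) ∈
          insert (Sum.inl i) (Finset.univ.image (Sum.inr : Fin g × Fin g → _))} = {p} := by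
        ext i
        simp [eq_comm]
      rw [hset]
      have : Subsingleton ({p} : Set (Fin g × Fin s)) := by infer_instance
      exact { preconnected := fun x y => by rw [Subsingleton.elim x y]
              nonempty := ⟨⟨p, rfl⟩⟩ }
    · have hset : {i : Fin g × Fin s | (Sum.inr b : (Fin g × Fin s) ⊕ (Fin g × Fin g)) ∈
          insert (Sum.inl i) (Finset.univ.image (Sum.inr : Fin g × Fin g → _))} = Set.univ := by
        ext i
        simp
      rw [hset]
      exact (SimpleGraph.induceUnivIso T).connected_iff.2 hT.connected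
  · intro i
    refine (Finset.card_insert_le _ _).trans ?_
    have h1 : (Finset.univ.image (Sum.inr : Fin g × Fin g → (Fin g × Fin s) ⊕ (Fin g × Fin g))).card
        ≤ g ^ 2 := by
      refine Finset.card_image_le.trans ?_
      simp [sq]
    omega

lemma le_dynamic (g s : ℕ) : g * s ≤ dynamicChromaticNumber (graph g s) (2 * s) := by
  classical
  apply le_csInf
  · refine ⟨Fintype.card ((Fin g × Fin s) ⊕ (Fin g × Fin g)), Fintype.equivFin _, ?_, ?_⟩
    · intro u v h he
      exact h.ne ((Fintype.equivFin _).injective he)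
    · intro v
      rw [Set.ncard_image_of_injective _ (Fintype.equivFin _).injective]
      exact min_le_right _ _
  · rintro k ⟨φ, -, hφ⟩
    have hinj : Function.Injective (fun p : Fin g × Fin s => φ (Sum.inl p)) := by
      rintro p q hpq
      have h1 := hφ (Sum.inr (p.1, q.1))
      have hsub : (graph g s).neighborSet (Sum.inr (p.1, q.1)) ⊆
          ((Finset.univ.image (fun z : Fin s => Sum.inl (p.1, z)) ∪
            Finset.univ.image (fun z : Fin s => Sum.inl (q.1, z)) :
              Finset ((Fin g × Fin s) ⊕ (Fin g × Fin g))) : Set _) := by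
        rintro (x | x) hx
        · rw [SimpleGraph.mem_neighborSet] at hx
          obtain ⟨a, z⟩ := x
          rcases hx with hx | hx
          · simp only at hx
            subst hx
            simp
          · simp only at hx
            subst hx
            simp
        · exact hx.elim
      have h2 : ((graph g s).neighborSet (Sum.inr (p.1, q.1))).ncard ≤ 2 * s := by
        refine (Set.ncard_le_ncard hsub (Finset.finite_toSet _)).trans ?_
        rw [Set.ncard_coe_finset]
        refine (Finset.card_union_le _ _).trans ?_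
        have h3 := Finset.card_image_le (s := (Finset.univ : Finset (Fin s)))
          (f := fun z : Fin s => (Sum.inl (p.1, z) : (Fin g × Fin s) ⊕ (Fin g × Fin g)))
        have h4 := Finset.card_image_le (s := (Finset.univ : Finset (Fin s)))
          (f := fun z : Fin s => (Sum.inl (q.1, z) : (Fin g × Fin s) ⊕ (Fin g × Fin g)))
        rw [Finset.card_univ, Fintype.card_fin] at h3 h4
        omega
      rw [min_eq_right h2] at h1
      have h5 : Set.InjOn φ ((graph g s).neighborSet (Sum.inr (p.1, q.1))) := by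
        rw [← Set.ncard_image_iff (Set.toFinite _)]
        exact le_antisymm (Set.ncard_image_le (Set.toFinite _)) h1
      have h6 := h5 (show (Sum.inl p : (Fin g × Fin s) ⊕ (Fin g × Fin g)) ∈ _ from Or.inl rfl)
        (show (Sum.inl q : (Fin g × Fin s) ⊕ (Fin g × Fin g)) ∈ _ from Or.inr rfl) hpq
      exact Sum.inl_injective h6
    have := Fintype.card_le_of_injective _ hinj
    simpa using this

/-- **The answer is negative.** For all `g, s ≥ 1` there is a finite graph with treewidth at most
`g ^ 2` and `2 s`-dynamic chromatic number at least `g s`. Consequently there is no constant `C`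
with `χ_r(G) ≤ C (tw(G) + r)` for all finite graphs `G` and all `r ≥ 1`. -/
theorem result :
    (∀ g s : ℕ, 1 ≤ g → 1 ≤ s → ∃ (V : Type) (_ : Finite V) (G : SimpleGraph V),
      treewidth G ≤ g ^ 2 ∧ g * s ≤ dynamicChromaticNumber G (2 * s)) ∧
    ¬ ∃ C : ℝ, ∀ (V : Type) (_ : Finite V) (G : SimpleGraph V) (r : ℕ), 1 ≤ r →
      (dynamicChromaticNumber G r : ℝ) ≤ C * (treewidth G + r) := by
  refine ⟨fun g s hg hs => ⟨_, inferInstance, graph g s, tw_le g s hg hs, le_dynamic g s⟩, ?_⟩
  rintro ⟨C, hC⟩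
  obtain ⟨n, hn⟩ := exists_nat_gt (max C 0)
  have hn0 : (0 : ℝ) < n := lt_of_le_of_lt (le_max_right _ _) hn
  have hnC : C < n := lt_of_le_of_lt (le_max_left _ _) hn
  have hn1 : 1 ≤ n := by exact_mod_cast hn0
  have hg1 : 1 ≤ 3 * n := by omega
  have hs1 : 1 ≤ (3 * n) ^ 2 := Nat.one_le_pow _ _ hg1
  have h1 := tw_le (3 * n) ((3 * n) ^ 2) hg1 hs1
  have h2 := le_dynamic (3 * n) ((3 * n) ^ 2)
  have h3 := hC _ inferInstance (graph (3 * n) ((3 * n) ^ 2)) (2 * (3 * n) ^ 2) (by omega)
  have h1' : (treewidth (graph (3 * n) ((3 * n) ^ 2)) : ℝ) ≤ (3 * n) ^ 2 := by exact_mod_cast h1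
  have h2' : ((3 * n) * (3 * n) ^ 2 : ℝ) ≤
      dynamicChromaticNumber (graph (3 * n) ((3 * n) ^ 2)) (2 * (3 * n) ^ 2) := by
    exact_mod_cast h2
  set t : ℝ := (treewidth (graph (3 * n) ((3 * n) ^ 2)) : ℝ) with ht
  have ht0 : 0 ≤ t := Nat.cast_nonneg _
  push_cast at h3
  have h4 : C * (t + 2 * (3 * (n : ℝ)) ^ 2) ≤ n * (3 * (3 * (n : ℝ)) ^ 2) := by
    have h5 : t + 2 * (3 * (n : ℝ)) ^ 2 ≤ 3 * (3 * (n : ℝ)) ^ 2 := by linarith
    have h6 : 0 ≤ t + 2 * (3 * (n : ℝ)) ^ 2 := by positivity
    calc C * (t + 2 * (3 * (n : ℝ)) ^ 2) ≤ n * (t + 2 * (3 * (n : ℝ)) ^ 2) :=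
          mul_le_mul_of_nonneg_right hnC.le h6
      _ ≤ n * (3 * (3 * (n : ℝ)) ^ 2) := mul_le_mul_of_nonneg_left h5 hn0.le
  have h7 : C * (t + 2 * (3 * (n : ℝ)) ^ 2) < n * (3 * (3 * (n : ℝ)) ^ 2) := by
    have h5 : t + 2 * (3 * (n : ℝ)) ^ 2 ≤ 3 * (3 * (n : ℝ)) ^ 2 := by linarith
    have h6 : 0 < t + 2 * (3 * (n : ℝ)) ^ 2 := by positivity
    calc C * (t + 2 * (3 * (n : ℝ)) ^ 2) < n * (t + 2 * (3 * (n : ℝ)) ^ 2) :=
          mul_lt_mul_of_pos_right hnC h6
      _ ≤ n * (3 * (3 * (n : ℝ)) ^ 2) := mul_le_mul_of_nonneg_left h5 hn0.le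
  nlinarith

end Pool.Agent.Results.MP_96dc1b_co.PairBlocks
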